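import Pool.Agent.Helper342.Hom.Final

set_option autoImplicit false

namespace Pool.Agent.Results.MP_c8123f_an.Existence

/-- `x i t` is the position at time `t` of body `i` (three bodies `0, 1, 2` in the plane `ℂ`).
Newton's equations `m_i x_i'' = ∂U/∂x_i`, `U = ∑_{i<j} m_i m_j / |x_i - x_j|`, hold for all
times, i.e. `x_i'' = ∑_{j ≠ i} m_j (x_j - x_i) / |x_j - x_i|^3`. -/
def IsSolution (m : Fin 3 → ℝ) (x : Fin 3 → ℝ → ℂ) : Prop :=
  ∃ v : Fin 3 → ℝ → ℂ, (∀ i t, HasDerivAt (x i) (v i t) t) ∧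
    ∀ i t, HasDerivAt (v i)
      (∑ j ∈ Finset.univ.erase i,
        (m j : ℂ) * (x j t - x i t) / ((‖x j t - x i t‖ : ℝ) : ℂ) ^ 3) t

/-- no two bodies ever meet -/
def CollisionFree (x : Fin 3 → ℝ → ℂ) : Prop :=
  ∀ i j, i ≠ j → ∀ t, x i t ≠ x j t

/-- the winding number about `0` of the curve `γ` on `[0, T]` is `k`: a continuous choice of the
argument of `γ` on `[0, T]` increases by `2 π k` -/
def HasDegree (γ : ℝ → ℂ) (T : ℝ) (k : ℤ) : Prop :=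
  ∃ φ : ℝ → ℝ, ContinuousOn φ (Set.Icc 0 T) ∧
    (∀ t ∈ Set.Icc 0 T, γ t = ((‖γ t‖ : ℝ) : ℂ) * Complex.exp ((φ t : ℂ) * Complex.I)) ∧
    φ T - φ 0 = 2 * Real.pi * k

open Pool.Agent.Helper342.Hom in
theorem degree_of_angle {γ γ' : ℝ → ℂ} {T Δ : ℝ} (k : ℤ) (c : ℂ)
    (h : HasAngle γ 0 T Δ) (he : ∀ t, γ' t = c * γ t) (hk : Δ = 2 * Real.pi * k) :
    HasDegree γ' T k := by
  obtain ⟨φ, h1, h2, h3⟩ := h.mul_const c
  refine ⟨φ, h1, fun t ht => ?_, by rw [h3, hk]⟩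
  rw [he t]; exact h2 t ht

/-- **Main result.** -/
theorem result : ∃ (m : Fin 3 → ℝ) (T : ℝ) (x : Fin 3 → ℝ → ℂ),
    (∀ i, 0 < m i) ∧ 0 < T ∧ IsSolution m x ∧ (∀ t, ∑ i, (m i : ℂ) * x i t = 0) ∧
    (∀ i t, x i (t + T) = x i t) ∧ CollisionFree x ∧
    HasDegree (fun t => x 0 t - x 1 t) T 1 ∧
    HasDegree (fun t => x 1 t - x 2 t) T 0 ∧
    HasDegree (fun t => x 2 t - x 0 t) T (-1) := by
  obtain ⟨X, W, pX, pW, dX, dW, NCX, hA, hB, hD⟩ := Pool.Agent.Helper342.Hom.full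
  have dU : ∀ t, HasDerivAt (fun t => (X t).1) (W t).1 t := fun t =>
    (ContinuousLinearMap.fst ℝ ℂ ℂ).hasFDerivAt.comp_hasDerivAt t (dX t)
  have dD : ∀ t, HasDerivAt (fun t => (X t).2) (W t).2 t := fun t =>
    (ContinuousLinearMap.snd ℝ ℂ ℂ).hasFDerivAt.comp_hasDerivAt t (dX t)
  have dV : ∀ t, HasDerivAt (fun t => (W t).1) (Pool.Agent.Helper342.Hom.Gam (X t)).1 t :=
    fun t => (ContinuousLinearMap.fst ℝ ℂ ℂ).hasFDerivAt.comp_hasDerivAt t (dW t)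
  have dV2 : ∀ t, HasDerivAt (fun t => (W t).2) (Pool.Agent.Helper342.Hom.Gam (X t)).2 t :=
    fun t => (ContinuousLinearMap.snd ℝ ℂ ℂ).hasFDerivAt.comp_hasDerivAt t (dW t)
  set x : Fin 3 → ℝ → ℂ := ![fun t => -(2 / 5) * (X t).1,
    fun t => (1 / 10) * (X t).1 + (1 / 2) * (X t).2,
    fun t => (1 / 10) * (X t).1 - (1 / 2) * (X t).2] with hx
  set v : Fin 3 → ℝ → ℂ := ![fun t => -(2 / 5) * (W t).1,
    fun t => (1 / 10) * (W t).1 + (1 / 2) * (W t).2,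
    fun t => (1 / 10) * (W t).1 - (1 / 2) * (W t).2] with hv
  have x0 : ∀ t, x 0 t = -(2 / 5) * (X t).1 := fun t => rfl
  have x1 : ∀ t, x 1 t = (1 / 10) * (X t).1 + (1 / 2) * (X t).2 := fun t => rfl
  have x2 : ∀ t, x 2 t = (1 / 10) * (X t).1 - (1 / 2) * (X t).2 := fun t => rfl
  have d10 : ∀ t, x 1 t - x 0 t = (1 / 2) * ((X t).1 + (X t).2) := fun t => by
    rw [x0, x1]; ring
  have d20 : ∀ t, x 2 t - x 0 t = (1 / 2) * ((X t).1 - (X t).2) := fun t => by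
    rw [x0, x2]; ring
  have d12 : ∀ t, x 1 t - x 2 t = (X t).2 := fun t => by
    rw [x1, x2]; ring
  have n10 : ∀ t, x 1 t ≠ x 0 t := fun t h => by
    have := d10 t
    rw [h, sub_self] at this
    have h2 := (NCX t).1
    apply h2
    linear_combination (-2 : ℂ) * this
  have n20 : ∀ t, x 2 t ≠ x 0 t := fun t h => by
    have := d20 t
    rw [h, sub_self] at this
    have h2 := (NCX t).2.1
    apply h2
    linear_combination (-2 : ℂ) * this
  have n12 : ∀ t, x 1 t ≠ x 2 t := fun t h => by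
    have := d12 t
    rw [h, sub_self] at this
    exact (NCX t).2.2 this.symm
  have half : ∀ z : ℂ, (1 / 2 * z) / ((‖1 / 2 * z‖ : ℝ) : ℂ) ^ 3
      = 4 * Pool.Agent.Helper342.Hom.Fc z := by
    intro z
    unfold Pool.Agent.Helper342.Hom.Fc
    rw [norm_mul]
    by_cases hz : z = 0
    · simp [hz]
    · have : ((‖z‖ : ℝ) : ℂ) ≠ 0 := by simpa using hz
      have h2 : ‖(1 / 2 : ℂ)‖ = 1 / 2 := by simp
      rw [h2]
      push_cast
      field_simp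
      norm_num
  refine ⟨![1 / 4, 1 / 2, 1 / 2], 8, x, ?_, by norm_num, ⟨v, ?_, ?_⟩, ?_, ?_, ?_, ?_, ?_, ?_⟩
  · intro i
    fin_cases i <;> norm_num
  · intro i t
    fin_cases i
    · exact (dU t).const_mul _
    · exact ((dU t).const_mul _).add ((dD t).const_mul _)
    · exact ((dU t).const_mul _).sub ((dD t).const_mul _)
  · intro i t
    have F10 : ∀ t, (x 1 t - x 0 t) / ((‖x 1 t - x 0 t‖ : ℝ) : ℂ) ^ 3 =
        4 * Pool.Agent.Helper342.Hom.Fc ((X t).1 + (X t).2) := fun t => by rw [d10, half]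
    have F20 : ∀ t, (x 2 t - x 0 t) / ((‖x 2 t - x 0 t‖ : ℝ) : ℂ) ^ 3 =
        4 * Pool.Agent.Helper342.Hom.Fc ((X t).1 - (X t).2) := fun t => by rw [d20, half]
    have F12 : ∀ t, (x 1 t - x 2 t) / ((‖x 1 t - x 2 t‖ : ℝ) : ℂ) ^ 3 =
        Pool.Agent.Helper342.Hom.Fc (X t).2 := fun t => by
      rw [d12]; rfl
    have sw : ∀ i j : Fin 3, (x i t - x j t) / ((‖x i t - x j t‖ : ℝ) : ℂ) ^ 3 =
        -((x j t - x i t) / ((‖x j t - x i t‖ : ℝ) : ℂ) ^ 3) := by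
      intro i j
      rw [norm_sub_rev, ← neg_div, neg_sub]
    fin_cases i
    · refine ((dV t).const_mul (-(2 / 5) : ℂ)).congr_deriv ?_
      have : (Finset.univ.erase (0 : Fin 3)) = {1, 2} := by decide
      show _ = ∑ j ∈ Finset.univ.erase (0 : Fin 3), _
      rw [this, Finset.sum_pair (by decide), mul_div_assoc, mul_div_assoc]
      show _ = (((![1 / 4, 1 / 2, 1 / 2] : Fin 3 → ℝ) 1 : ℝ) : ℂ) *
          ((x 1 t - x 0 t) / ((‖x 1 t - x 0 t‖ : ℝ) : ℂ) ^ 3) +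
        (((![1 / 4, 1 / 2, 1 / 2] : Fin 3 → ℝ) 2 : ℝ) : ℂ) *
          ((x 2 t - x 0 t) / ((‖x 2 t - x 0 t‖ : ℝ) : ℂ) ^ 3)
      rw [F10, F20]
      simp [Pool.Agent.Helper342.Hom.Gam]
      ring
    · refine (((dV t).const_mul (1 / 10 : ℂ)).add ((dV2 t).const_mul (1 / 2 : ℂ))).congr_deriv ?_
      have : (Finset.univ.erase (1 : Fin 3)) = {0, 2} := by decide
      show _ = ∑ j ∈ Finset.univ.erase (1 : Fin 3), _
      rw [this, Finset.sum_pair (by decide), mul_div_assoc, mul_div_assoc]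
      show _ = (((![1 / 4, 1 / 2, 1 / 2] : Fin 3 → ℝ) 0 : ℝ) : ℂ) *
          ((x 0 t - x 1 t) / ((‖x 0 t - x 1 t‖ : ℝ) : ℂ) ^ 3) +
        (((![1 / 4, 1 / 2, 1 / 2] : Fin 3 → ℝ) 2 : ℝ) : ℂ) *
          ((x 2 t - x 1 t) / ((‖x 2 t - x 1 t‖ : ℝ) : ℂ) ^ 3)
      rw [sw 0 1, sw 2 1, F10, F12]
      simp [Pool.Agent.Helper342.Hom.Gam]
      ring
    · refine (((dV t).const_mul (1 / 10 : ℂ)).sub ((dV2 t).const_mul (1 / 2 : ℂ))).congr_deriv ?_
      have : (Finset.univ.erase (2 : Fin 3)) = {0, 1} := by decide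
      show _ = ∑ j ∈ Finset.univ.erase (2 : Fin 3), _
      rw [this, Finset.sum_pair (by decide), mul_div_assoc, mul_div_assoc]
      show _ = (((![1 / 4, 1 / 2, 1 / 2] : Fin 3 → ℝ) 0 : ℝ) : ℂ) *
          ((x 0 t - x 2 t) / ((‖x 0 t - x 2 t‖ : ℝ) : ℂ) ^ 3) +
        (((![1 / 4, 1 / 2, 1 / 2] : Fin 3 → ℝ) 1 : ℝ) : ℂ) *
          ((x 1 t - x 2 t) / ((‖x 1 t - x 2 t‖ : ℝ) : ℂ) ^ 3)
      rw [sw 0 2, F20, F12]
      simp [Pool.Agent.Helper342.Hom.Gam]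
      ring
  · intro t
    rw [Fin.sum_univ_three, x0, x1, x2]
    simp
    ring
  · intro i t
    fin_cases i
    · show x 0 (t + 8) = x 0 t
      rw [x0, x0, pX]
    · show x 1 (t + 8) = x 1 t
      rw [x1, x1, pX]
    · show x 2 (t + 8) = x 2 t
      rw [x2, x2, pX]
  · intro i j hij t
    fin_cases i <;> fin_cases j
    · exact absurd rfl hij
    · exact (n10 t).symm
    · exact (n20 t).symm
    · exact n10 t
    · exact absurd rfl hij
    · exact n12 t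
    · exact n20 t
    · exact (n12 t).symm
    · exact absurd rfl hij
  · refine degree_of_angle 1 (-(1 / 2)) hA (fun t => ?_) (by push_cast; ring)
    show x 0 t - x 1 t = _
    rw [← neg_sub, d10]; ring
  · refine degree_of_angle 0 1 hD (fun t => ?_) (by push_cast; ring)
    show x 1 t - x 2 t = _
    rw [d12, one_mul]
  · refine degree_of_angle (-1) (1 / 2) hB (fun t => ?_) (by push_cast; ring)
    show x 2 t - x 0 t = _
    rw [d20]

end Pool.Agent.Results.MP_c8123f_an.Existence
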